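import Pool.Agent.N504.TL.FDef
import Pool.Agent.N504.TL.GEq
import Pool.Agent.N504.TL.TEq
import Pool.Agent.N504.TL.Join3

/-!
# Torsion growth and `L²`-torsion of an odd-dimensional closed aspherical manifold
-/

set_option autoImplicit false

namespace Pool.Agent.Results.MP_98dedd_gt.CubeGrowth

open Filter Topology
open Pool.Agent.W907.SG (W L2Van)
open Pool.Agent.TH652.Above (HSph)
open Pool.Agent.R782.Bal (MF cs EmbX)
open Pool.Agent.N504.TG Pool.Agent.N504.TL

/-- Let `p` be an odd prime, `X` a finite simplicial complex whose vertices are coloured by `d + 1` colours such that no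
triangle is monochromatic, let `X` be embedded in the sphere of dimension `2 d`, and let `X` contain the
octahedralization `OL` of a balanced `d`-dimensional flag complex `L` with a nonzero `d`-cycle `z` modulo `p`. Let `T`
be the flag complex obtained from `X` by the subdivision of the monochromatic edges at their midpoints, and suppose
that `T` is a homology manifold with the homology of the `2 d`-sphere. Let `Σ` be the Davis complex of the
right-angled Coxeter group `W` of `T * T * T`. Then all `L²`-Betti numbers of `Σ` vanish, all Laplacians have positive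
Fuglede-Kadison determinant and the `L²`-torsion of `Σ` is zero, but `W` has a residual chain `K i` of normal
subgroups of finite index, contained in the kernel of the map to `(ℤ/2)^V`, such that the logarithm of the order of
the torsion subgroup of the integral homology of `Σ/K i` in the degree `k = 3 d + 1` is eventually larger than
`(1 - ε) * log p` times the index. So the normalized logarithms do not converge to `(-1) ^ k` times the
`L²`-torsion. -/
theorem result (p d N n : ℕ) [Fact p.Prime] (hp : p ≠ 2) (X : Finset (Finset (Fin N))) (col : Fin N → Fin (d + 1))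
    (L : SimpleGraph (Fin n)) (κ : Fin n → Fin (d + 1)) (e : Fin n → Bool → Fin N)
    (z : (Fin (d + 1) → Fin n) → ZMod p)
    (hX : ColX d X col) (hO : OctIn p d X col L κ e z)
    [Fintype (MF X col)] [LinearOrder (MF X col)] (hS : HSph (2 * d + 1) (cs X col)) :
    @TFail _ _ (ord3 (MF X col)) (join3 (cs X col)) p (3 * d + 1) := by
  letI := ord3 (MF X col)
  have hsmall : Pool.Agent.R782.Bal.Small d X col :=
    ⟨fun _ => 1, by simp, fun σ hσ c hc => by simpa using hX.mono σ hσ c hc⟩
  have hlv : ∀ i, Pool.Agent.W907.SM.LV (cs X col) i := fun i => by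
    have h1 : L2Van (cs X col) i :=
      Pool.Agent.R782.Bal.singer_cs (Or.inr rfl) hX.down hsmall hX.emb hS i (by omega)
    intro hf o
    exact Pool.Agent.W907.SG.ord (MF X col) (MF X col) _ hf _ o (cs X col) (cs X col) i ⟨SimpleGraph.Iso.refl⟩ h1
  obtain ⟨h1, h2, h3⟩ := join3_rho (cs X col) hlv
  obtain ⟨K, hK, h4⟩ := three_growth p d N n hp X col L κ e z hX hO
  have hlog : 0 < Real.log p := Real.log_pos (by exact_mod_cast (Fact.out : p.Prime).one_lt)
  have htr : trat (join3 (cs X col)) K (3 * d + 1) = trate (join3 (cs X col)) K (3 * d + 1) :=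
    funext fun i => trat_eq _ K _ i
  refine ⟨fun i => h1 i _ _, fun m => by rw [detC_eq]; exact h2 m, by rw [rhoC_eq]; exact h3, K, rch_of _ _ hK,
    fun ε hε => ?_, ?_⟩
  · rw [htr]
    filter_upwards [h4 ε hε] with i hi
    exact trate_ge _ hK _ i _ hi
  · rw [htr, rhoC_eq, h3, mul_zero, mul_zero]
    refine not_tendsto_trate _ hK _ (1 / 2 * Real.log p) (by positivity) ?_
    filter_upwards [h4 (1 / 2) (by norm_num)] with i hi
    have h5 := trate_ge _ hK _ i _ hi
    rw [show (1 : ℝ) - 1 / 2 = 1 / 2 by norm_num] at h5
    exact h5

end Pool.Agent.Results.MP_98dedd_gt.CubeGrowth
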