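import Pool.Agent.N504.TG.Two
import Pool.Agent.N504.TG.ChainDef

/-!
# Torsion growth in an even-dimensional closed aspherical manifold
-/

set_option autoImplicit false

namespace Pool.Agent.Results.MP_228c3b_gt.SquareGrowth

open Filter Topology
open Pool.Agent.W907.SG (W cox)
open Pool.Agent.TH652.Join (join ordSum)
open Pool.Agent.R782.Bal (MF cs EmbX)
open Pool.Agent.N504.TG

/-- Let `p` be an odd prime, `X` a finite simplicial complex whose vertices are coloured by `d + 1` colours such that no
triangle is monochromatic, let `X` be embedded in the sphere of dimension `2 d`, and let `X` contain the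
octahedralization `OL` of a balanced `d`-dimensional flag complex `L` with a nonzero `d`-cycle `z` modulo `p`. Let
`G` be the graph of the flag complex `T` obtained from `X` by the subdivision of the monochromatic edges at their
midpoints. The right-angled Coxeter group of the join `G * G` has a residual chain `K i` of normal subgroups of
finite index, contained in the kernel of the map to `(ℤ/2)^V`, such that for `Σ` the Davis complex of the join the
logarithm of the order of the torsion subgroup of the integral homology of `Σ/K i` in the degrees `2 d` and `2 d + 1`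
is eventually larger than `(1 - ε) * log p` times the index. In particular it does not grow sublinearly. -/
theorem result (p d N n : ℕ) [Fact p.Prime] (hp : p ≠ 2) (X : Finset (Finset (Fin N))) (col : Fin N → Fin (d + 1))
    (L : SimpleGraph (Fin n)) (κ : Fin n → Fin (d + 1)) (e : Fin n → Bool → Fin N)
    (z : (Fin (d + 1) → Fin n) → ZMod p)
    (hX : ColX d X col) (hO : OctIn p d X col L κ e z)
    [Fintype (MF X col)] [LinearOrder (MF X col)] :
    ∃ K : ℕ → Subgroup (W (join (cs X col) (cs X col))), Chain _ K ∧ ∀ k, (k = 2 * d ∨ k = 2 * d + 1) →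
      (∀ ε : ℝ, 0 < ε → ∀ᶠ i in atTop, (1 - ε) * Real.log p * (K 0).index ≤ rate _ _ K k i) ∧
      ¬ Tendsto (rate _ _ K k) atTop (𝓝 0) := by
  obtain ⟨H, h1, h2, h3, h4⟩ := chain_tsys hp hX.down hX.mono hX.emb hO
  have hlog : 0 < Real.log p := Real.log_pos (by exact_mod_cast (Fact.out : p.Prime).one_lt)
  have hC : Chain (join (cs X col) (cs X col)) (fun i => PS (H i) (H i)) :=
    ⟨fun i j hij => PS_mono (h1 hij) (h1 hij), fun i => PS_normal (h2 i).1 (h2 i).1,
      fun i => PS_fin (h2 i).2.1 (h2 i).2.1, fun i => PS_ker (h2 i).2.2 (h2 i).2.2, fun g hg => PS_bot _ _ h3 h3 g hg⟩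
  have key : ∀ k, (k = 2 * d ∨ k = 2 * d + 1) → ∀ ε : ℝ, 0 < ε → ∀ᶠ i in atTop,
      (1 - ε) * Real.log p * (PS (H i) (H i)).index ≤
        Real.log (torsJ (cs X col) (cs X col) (PS (H i) (H i)) k) := by
    intro k hk ε hε
    letI := ordSum (MF X col) (MF X col)
    obtain ⟨δ, hδ0, hδ1, hδ2⟩ : ∃ δ : ℝ, 0 < δ ∧ δ ≤ 1 ∧ 2 * δ ≤ ε :=
      ⟨min 1 (ε / 2), lt_min one_pos (by positivity), min_le_left _ _, by
        have := min_le_right 1 (ε / 2); linarith⟩
    obtain ⟨i0, hi0⟩ := h4 δ hδ0
    filter_upwards [eventually_ge_atTop i0] with i hi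
    haveI := (h2 i).2.1
    haveI := PS_fin (G := cs X col) (H := cs X col) (h2 i).2.1 (h2 i).2.1
    letI : Fintype (QX (cs X col) (H i)) := @Fintype.ofFinite _ (Finite.of_equiv _
      (QuotientGroup.quotientRightRelEquivQuotientLeftRel (H i)).symm)
    letI : Fintype (QX (join (cs X col) (cs X col)) (PS (H i) (H i))) := @Fintype.ofFinite _ (Finite.of_equiv _
      (QuotientGroup.quotientRightRelEquivQuotientLeftRel (PS (H i) (H i))).symm)
    obtain ⟨ι, _, _, t1, t2⟩ := hi0 i hi
    have hx : XSys p (join (cs X col) (cs X col))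
        (Pool.Agent.Y132.SI.aa (join (cs X col) (cs X col)) (PS (H i) (H i))) k (ι × ι) := by
      rcases hk with rfl | rfl
      · have := PS_xsys (xsys_mul (TSys.xsys t1) (TSys.xsys t1))
        rwa [← two_mul] at this
      · have := PS_xsys (tsys_mul t1 t1)
        rwa [← two_mul] at this
    have h5 := log_tors hx
    refine le_trans ?_ h5
    rw [PS_index, Fintype.card_prod]
    push_cast
    have hi1 : (0 : ℝ) ≤ (H i).index := Nat.cast_nonneg _
    have h6 : (1 - ε) * ((H i).index * (H i).index : ℝ) ≤ (Fintype.card ι : ℝ) * Fintype.card ι := by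
      have h7 : 0 ≤ (1 - δ) * ((H i).index : ℝ) := mul_nonneg (by linarith) hi1
      have h8 := mul_le_mul t2 t2 h7 (h7.trans t2)
      refine le_trans ?_ h8
      have h9 : (0 : ℝ) ≤ (H i).index * (H i).index := mul_nonneg hi1 hi1
      nlinarith [mul_nonneg (sq_nonneg δ) h9]
    nlinarith
  refine ⟨fun i => PS (H i) (H i), hC, fun k hk => ⟨fun ε hε => ?_, ?_⟩⟩
  · filter_upwards [key k hk ε hε] with i hi
    exact rate_ge _ _ hC k i _ hi
  · refine not_tendsto_rate _ _ hC k (1 / 2 * Real.log p) (by positivity) ?_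
    filter_upwards [key k hk (1 / 2) (by norm_num)] with i hi
    have h5 := rate_ge _ _ hC k i _ hi
    rw [show (1 : ℝ) - 1 / 2 = 1 / 2 by norm_num] at h5
    exact h5

end Pool.Agent.Results.MP_228c3b_gt.SquareGrowth
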